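import Pool.Agent.H174.GM.Stmts2

set_option autoImplicit false

/-! # GM RATIO (subtask by helper284) -/

namespace Pool.Agent.H284.GM174

open Finset Pool.Agent.H174.GM

variable {k : ℕ}

lemma res_algebraMap_mul (c : ℚ) (f : E k) : res (algebraMap ℚ (E k) c * f) = c * res f := by
  unfold res
  rw [← Algebra.smul_def, HahnSeries.coeff_smul, smul_eq_mul]

/-- the exponent of the variable `x_j` -/
def ex (j : Fin k) : Ex k := toLex (Pi.single j 1)

lemma ex_inj {i j : Fin k} (h : i ≠ j) : ex i ≠ ex j := by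
  intro h'
  have h1 : (Pi.single i 1 : Fin k → ℤ) = Pi.single j 1 := toLex.injective h'
  have h2 := congrFun h1 i
  rw [Pi.single_eq_same, Pi.single_eq_of_ne h] at h2
  exact one_ne_zero h2

lemma ex_ne_zero (i : Fin k) : ex i ≠ 0 := by
  intro h'
  have h1 : (Pi.single i 1 : Fin k → ℤ) = 0 := toLex.injective h'
  have h2 := congrFun h1 i
  rw [Pi.single_eq_same] at h2
  exact one_ne_zero h2

lemma ex_add_ne_zero (i j : Fin k) : ex i + ex j ≠ 0 := by
  intro h'
  have h1 : (Pi.single i 1 + Pi.single j 1 : Fin k → ℤ) = 0 := toLex.injective h'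
  have h2 := congrFun h1 i
  rw [Pi.add_apply, Pi.single_eq_same] at h2
  have h3 : (0 : ℤ) ≤ (Pi.single j 1 : Fin k → ℤ) i := by
    by_cases h : i = j
    · subst h
      rw [Pi.single_eq_same]
      exact zero_le_one
    · rw [Pi.single_eq_of_ne h]
  have h4 : (0 : Fin k → ℤ) i = 0 := rfl
  rw [h4] at h2
  omega

lemma xx_eq (j : Fin k) : xx j = HahnSeries.single (ex j) (1 : ℚ) := rfl

lemma xx_mul (i j : Fin k) : xx i * xx j = HahnSeries.single (ex i + ex j) (1 : ℚ) := by
  rw [xx_eq, xx_eq, HahnSeries.single_mul_single, one_mul]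

lemma coeff_xx_zero (j : Fin k) : (xx j : E k).coeff 0 = 0 := by
  rw [xx_eq]
  exact HahnSeries.coeff_single_of_ne (ex_ne_zero j).symm

lemma coeff_xx_mul_zero (i j : Fin k) : (xx i * xx j : E k).coeff 0 = 0 := by
  rw [xx_mul]
  exact HahnSeries.coeff_single_of_ne (ex_add_ne_zero i j).symm

lemma coeff_one_zero : (1 : E k).coeff 0 = 1 := by
  rw [HahnSeries.coeff_one, if_pos rfl]

lemma ne_zero_of_coeff {f : E k} {γ : Ex k} (h : f.coeff γ = 1) : f ≠ 0 := by
  rintro rfl
  rw [HahnSeries.coeff_zero] at h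
  exact zero_ne_one h

lemma xx_ne_zero (j : Fin k) : xx j ≠ (0 : E k) := by
  refine ne_zero_of_coeff (γ := ex j) ?_
  rw [xx_eq]
  exact HahnSeries.coeff_single_same _ _

lemma one_sub_xx_ne_zero (j : Fin k) : 1 - xx j ≠ (0 : E k) := by
  refine ne_zero_of_coeff (γ := 0) ?_
  rw [HahnSeries.coeff_sub, coeff_one_zero, coeff_xx_zero, sub_zero]

lemma uu_ne_zero (j : Fin k) : uu (xx j) ≠ (0 : E k) :=
  mul_ne_zero (xx_ne_zero j) (one_sub_xx_ne_zero j)

lemma d2_ne_zero {i j : Fin k} (h : i ≠ j) : d2 (uu (xx i)) (uu (xx j)) ≠ (0 : E k) := by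
  have e : d2 (uu (xx i)) (uu (xx j)) = (1 - xx i + xx i * xx j) * (1 - xx i * xx j) *
      (1 - xx j + xx i * xx j) * (xx i + xx j - xx i * xx j : E k) := by
    unfold d2 uu
    ring
  rw [e]
  refine mul_ne_zero (mul_ne_zero (mul_ne_zero ?_ ?_) ?_) ?_
  · refine ne_zero_of_coeff (γ := 0) ?_
    rw [HahnSeries.coeff_add, HahnSeries.coeff_sub, coeff_one_zero, coeff_xx_zero,
      coeff_xx_mul_zero]
    norm_num
  · refine ne_zero_of_coeff (γ := 0) ?_
    rw [HahnSeries.coeff_sub, coeff_one_zero, coeff_xx_mul_zero]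
    norm_num
  · refine ne_zero_of_coeff (γ := 0) ?_
    rw [HahnSeries.coeff_add, HahnSeries.coeff_sub, coeff_one_zero, coeff_xx_zero,
      coeff_xx_mul_zero]
    norm_num
  · refine ne_zero_of_coeff (γ := ex j) ?_
    have h1 : (xx i : E k).coeff (ex j) = 0 := by
      rw [xx_eq]
      exact HahnSeries.coeff_single_of_ne (ex_inj h).symm
    have h2 : (xx j : E k).coeff (ex j) = 1 := by
      rw [xx_eq]
      exact HahnSeries.coeff_single_same _ _
    have h3 : (xx i * xx j : E k).coeff (ex j) = 0 := by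
      rw [xx_mul]
      refine HahnSeries.coeff_single_of_ne ?_
      intro h'
      exact ex_ne_zero i (add_eq_right.1 h'.symm)
    rw [HahnSeries.coeff_sub, HahnSeries.coeff_add, h1, h2, h3]
    norm_num

lemma dd_ne_zero : dd (xx (k := k)) ≠ 0 := by
  unfold dd
  refine prod_ne_zero_iff.2 fun p hp => d2_ne_zero ?_
  unfold pairs at hp
  exact ne_of_lt (mem_filter.1 hp).2

/-- **RATIO** -/
theorem ratio (h1 : S_GSYM) (h2 : S_MSYM) (h3 : S_QPSI) (h4 : S_MTOT) (h5 : S_GCNT) (h6 : S_POS) :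
    Pool.Agent.H174.GM.S_RATIO := by
  intro k hk
  obtain ⟨κ, hκ0, hκ⟩ := h3 k
  have hst : StrictMono (st k) := by
    intro i j hij
    unfold st
    have : i.1 < j.1 := hij
    omega
  have hst1 : ∀ i, 1 ≤ st k i := fun i => Nat.le_add_left _ _
  have hP : (∏ i, uu (xx (k := k) i)) ≠ 0 := prod_ne_zero_iff.2 fun i _ => uu_ne_zero i
  have key : ∀ n, k ≤ n → gres k 0 (st k) * (gogW n k : ℚ) =
      κ * (Nat.factorial k : ℚ) * (magogW n k : ℚ) := by
    intro n hn
    have e1 := h1 k n hn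
    rw [h5 k n (st k) hk hst hst1, hκ] at e1
    have e2 : algebraMap ℚ (E k) κ * (∏ i, uu (xx (k := k) i)) * db (xx (k := k)) *
        dd (xx (k := k)) * ee (xx (k := k)) /
          (dd (xx (k := k)) * (∏ i, uu (xx (k := k) i)) ^ (n + k + 1)) =
        algebraMap ℚ (E k) κ * (db (xx (k := k)) * ee (xx (k := k)) /
          (∏ i, uu (xx (k := k) i)) ^ (n + k)) := by
      have hD := dd_ne_zero (k := k)
      rw [pow_succ]
      field_simp
    rw [e2, res_algebraMap_mul, ← h2 k n hn, h4 k n hk] at e1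
    have h7 : (2 : ℚ) ^ k ≠ 0 := by positivity
    refine mul_left_cancel₀ h7 ?_
    have h8 : (NG k n (st k) : ℚ) = (gogW n k : ℚ) := rfl
    rw [h8] at e1
    rw [e1]
    ring
  have hD : gres k 0 (st k) ≠ 0 := by
    intro h0
    have h7 := key k le_rfl
    rw [h0, zero_mul] at h7
    have h8 : (magogW k k : ℚ) ≠ 0 := by
      exact_mod_cast (h6 k k).ne'
    have h9 : (Nat.factorial k : ℚ) ≠ 0 := by
      exact_mod_cast (Nat.factorial_pos k).ne'
    exact mul_ne_zero (mul_ne_zero hκ0 h9) h8 h7.symm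
  refine ⟨κ * (Nat.factorial k : ℚ) / gres k 0 (st k), fun n hn => ?_⟩
  have h7 := key n hn
  field_simp
  linarith

end Pool.Agent.H284.GM174
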